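import Pool.Agent.Lib.MP_b83a82_al.LP.Stm3

set_option autoImplicit false

/-!
# LARGE PRIMES: assembly (helper26)
-/

namespace MP_b83a82_al.LP

universe u

theorem asm_A (hBCL : S_BCL) (hUIN : S_UIN) (hTR1 : S_TR1) (hTR2 : S_TR2) (hSTR : S_STR)
    (hINE : S_INE) (hALG : S_ALG) (hSLO : S_SLO) (hMIN : S_MIN) (hBND : S_BND) (hDDC : S_DDC)
    (hDER : S_DER) (hROT : S_ROT) (hOFF : S_OFF) (hASA : S_ASA) : R_A := by
  have uin : R_UIN := hUIN hBCL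
  have ine : R_INE := hINE hBCL uin hTR1 hTR2 hSTR
  have alg : R_ALG := hALG ine uin
  have bnd : R_BND := hBND uin
  have der : R_DER := hDER hBCL
  have rot : R_ROT := hROT der hBCL
  have off : R_OFF := hOFF hDDC uin hBCL
  exact hASA hBCL alg hSLO hMIN bnd hDDC rot off

theorem asm_C (hA : R_A) (hLEF : S_LEF) (hENC : S_ENC) (hOPT : S_OPT) (hCOM : S_COM)
    (hAFL : S_AFL) (hUNQ : S_UNQ) (hFRO : S_FRO) (hDES : S_DES) (hSLB : S_SLB)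
    (hASC : S_ASC) : R_C :=
  hASC (hENC hLEF hA) hOPT hAFL (hFRO (hUNQ hCOM hAFL)) hDES hSLB

theorem asm_D (hC : R_C) (hEXA : S_EXA.{u}) (hLOG : S_LOG) (hEXB : S_EXB.{u})
    (hPFL : S_PFL.{u}) (hADX : S_ADX.{u}) (hLKK : S_LKK.{u}) (hLIE : S_LIE.{u})
    (hSEC : S_SEC.{u}) (hSEE : S_SEE.{u}) (hFLG : S_FLG.{u}) (hTRA : S_TRA.{u})
    (hGRP : S_GRP.{u}) : R_D.{u} := by
  have adx : R_ADX.{u} := hADX hEXA
  have lkk : R_LKK.{u} := hLKK hEXA hLOG hEXB hPFL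
  have lie : R_LIE.{u} := hLIE hEXA hLOG hEXB hPFL lkk
  have sec : R_SEC.{u} := hSEC hEXA hLOG hEXB adx lkk
  have see : R_SEE.{u} := hSEE hEXA hLOG hEXB adx lkk
  exact hGRP hFLG lie sec see hTRA hC

theorem asm_E (hLM2 : S_LM2.{u}) (hCI2 : S_CI2.{u}) (hSB2 : S_SB2.{u})
    (hML2 : S_ML2.{u}) : R_ML2.{u} := hML2 (hCI2 hLM2) (hSB2 hLM2)

end MP_b83a82_al.LP
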