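import Mathlib

set_option autoImplicit false

/-!
# LARGE PRIMES (helper26): definitions

Structure constants of Lie algebras, base change, weights; truncated exponentials and logarithms.
-/

open Matrix Polynomial

namespace MP_b83a82_al.LP

/-! ### Structure constants -/

/-- structure constants `[e_i, e_j] = ∑ l, c i j l • e_l` -/
abbrev SC (n : ℕ) (k : Type*) : Type _ := Fin n → Fin n → Fin n → k

section gen

variable {n : ℕ} {k : Type*} [CommRing k]

/-- the matrix of `ad e_i`: the entry in row `l` and column `j` is `c i j l` -/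
def adM (c : SC n k) (i : Fin n) : Matrix (Fin n) (Fin n) k := Matrix.of fun l j => c i j l

/-- `c` is antisymmetric, satisfies the Jacobi identity (`ad [e_i, e_j] = [ad e_i, ad e_j]`), and
every product of `K` of the matrices `ad e_i` is zero. -/
structure LieC (K : ℕ) (c : SC n k) : Prop where
  alt : ∀ i j l, c i j l = -c j i l
  jac : ∀ i j, adM c i * adM c j - adM c j * adM c i = ∑ s, c i j s • adM c s
  nil : ∀ f : Fin K → Fin n, (List.ofFn fun t => adM c (f t)).prod = 0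

/-- the structure constants in the basis of the columns of `g`, where `h` is the inverse of `g` -/
def bc (c : SC n k) (g h : Matrix (Fin n) (Fin n) k) : SC n k :=
  fun i j l => ∑ a, ∑ b, ∑ s, g a i * g b j * c a b s * h l s

/-- the bracket of two vectors -/
def br (c : SC n k) (x y : Fin n → k) : Fin n → k := fun l => ∑ i, ∑ j, x i * y j * c i j l

/-- the weights `w` are superadditive on the nonzero structure constants -/
def Adm (c : SC n k) (w : Fin n → ℝ) : Prop := ∀ i j l, c i j l ≠ 0 → w i + w j ≤ w l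

end gen

/-- the weights have a positive sum and `(∑ w)² ≥ (n / 34) ∑ w²` -/
def Good {n : ℕ} (w : Fin n → ℝ) : Prop :=
  0 < ∑ i, w i ∧ (n : ℝ) * ∑ i, w i ^ 2 ≤ 34 * (∑ i, w i) ^ 2

/-- in some basis there are good weights -/
def HasGood {n : ℕ} {k : Type*} [CommRing k] (c : SC n k) : Prop :=
  ∃ g h : Matrix (Fin n) (Fin n) k, g * h = 1 ∧ ∃ w : Fin n → ℝ, Good w ∧ Adm (bc c g h) w

/-- the span of the columns of `g` of weight at least `a` -/
def fil {n : ℕ} {k : Type*} [CommRing k] (g : Matrix (Fin n) (Fin n) k) (w : Fin n → ℝ) (a : ℝ) :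
    Submodule k (Fin n → k) := Submodule.span k {v | ∃ i, a ≤ w i ∧ v = fun r => g r i}

/-- the basis `g` with the weights `w` is optimal: it maximises `∑ w / |w|` -/
def Opt {n : ℕ} {k : Type*} [CommRing k] (c : SC n k) (g h : Matrix (Fin n) (Fin n) k)
    (w : Fin n → ℝ) : Prop :=
  g * h = 1 ∧ Adm (bc c g h) w ∧ Good w ∧ ∀ (g' h' : Matrix (Fin n) (Fin n) k) (w' : Fin n → ℝ),
    g' * h' = 1 → Adm (bc c g' h') w' → 0 < ∑ i, w' i →
      (∑ i, w' i) ^ 2 * ∑ i, w i ^ 2 ≤ (∑ i, w i) ^ 2 * ∑ i, w' i ^ 2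

/-! ### Structure constants over the complex numbers -/

section cpx

variable {n : ℕ}

/-- `A = ∑ (ad e_i)ᴴ (ad e_i)` -/
noncomputable def mA (c : SC n ℂ) : Matrix (Fin n) (Fin n) ℂ := ∑ i, (adM c i)ᴴ * adM c i

/-- `B = ∑ (ad e_i) (ad e_i)ᴴ` -/
noncomputable def mB (c : SC n ℂ) : Matrix (Fin n) (Fin n) ℂ := ∑ i, adM c i * (adM c i)ᴴ

/-- `Q = B - 2 A` (four times the Ricci operator) -/
noncomputable def mQ (c : SC n ℂ) : Matrix (Fin n) (Fin n) ℂ := mB c - (2 : ℂ) • mA c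

/-- the square of the norm of the bracket -/
noncomputable def nrm (c : SC n ℂ) : ℝ := ∑ i, ∑ j, ∑ l, ‖c i j l‖ ^ 2

/-- the failure of `(ad e_x)ᴴ` to be a derivation:
`[(ad e_x)ᴴ, ad e_y] - ad ((ad e_x)ᴴ e_y)` -/
noncomputable def mR (c : SC n ℂ) (x y : Fin n) : Matrix (Fin n) (Fin n) ℂ :=
  (adM c x)ᴴ * adM c y - adM c y * (adM c x)ᴴ - ∑ a, (adM c x)ᴴ a y • adM c a

/-- rescaling of the basis: `e_i` is multiplied by `exp (d i)` -/
noncomputable def sc (c : SC n ℂ) (d : Fin n → ℝ) : SC n ℂ :=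
  fun i j l => c i j l * (Real.exp (d i + d j - d l) : ℂ)

/-- unitary matrices -/
def Un (u : Matrix (Fin n) (Fin n) ℂ) : Prop := uᴴ * u = 1 ∧ u * uᴴ = 1

/-- the structure constants in the basis `u` (unitary), rescaled by `d` -/
noncomputable def ud (c : SC n ℂ) (u : Matrix (Fin n) (Fin n) ℂ) (d : Fin n → ℝ) : SC n ℂ :=
  sc (bc c u uᴴ) d

/-- the function to be minimised -/
noncomputable def Ph (c : SC n ℂ) (κ : ℝ) (u : Matrix (Fin n) (Fin n) ℂ) (d : Fin n → ℝ) : ℝ :=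
  Real.log (nrm (ud c u d)) + κ * ∑ i, d i ^ 2

/-- `(u, d)` is a minimum of `Ph c κ` -/
def IsMin (c : SC n ℂ) (κ : ℝ) (u : Matrix (Fin n) (Fin n) ℂ) (d : Fin n → ℝ) : Prop :=
  Un u ∧ ∑ i, d i = 0 ∧ ∀ (u' : Matrix (Fin n) (Fin n) ℂ) (d' : Fin n → ℝ), Un u' →
    ∑ i, d' i = 0 → Ph c κ u d ≤ Ph c κ u' d'

end cpx

/-! ### Truncated exponentials in characteristic `p` -/

/-- the exponential series up to degree `p - 1` -/
noncomputable def tex (p : ℕ) [Fact p.Prime] {R : Type*} [Ring R] [Algebra (ZMod p) R] (x : R) :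
    R := ∑ j ∈ Finset.range p, ((j.factorial : ZMod p)⁻¹) • x ^ j

/-- `q` is a logarithm: `q (exp X - 1) = X` modulo `X ^ m` -/
structure LogP (p m : ℕ) [Fact p.Prime] (q : (ZMod p)[X]) : Prop where
  zero : q.coeff 0 = 0
  one : q.coeff 1 = 1
  deg : q.natDegree ≤ m
  eq : ∃ r : (ZMod p)[X], q.comp (tex p (X : (ZMod p)[X]) - 1) = X + X ^ m * r

/-- `J` is a nilpotent subalgebra of the finite algebra `R`, `J ^ m = 0`, `p` is large. -/
structure NilJ (p m : ℕ) [Fact p.Prime] {R : Type*} [Ring R] [Algebra (ZMod p) R]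
    (J : Submodule (ZMod p) R) : Prop where
  mul : J * J ≤ J
  nil : J ^ m = ⊥
  two : 2 ≤ m
  large : 2 * m * m ≤ p

/-- `W` is the set of the logarithms of the elements of `S` -/
def IsLog (p : ℕ) [Fact p.Prime] {R : Type*} [Ring R] [Algebra (ZMod p) R]
    (J : Submodule (ZMod p) R) {A : Type*} [Group A] (ρ : A →* R) (S : Subgroup A)
    (W : Submodule (ZMod p) R) : Prop :=
  W ≤ J ∧ ∀ x : R, x ∈ W ↔ x ∈ J ∧ ∃ s ∈ S, tex p x = ρ s

/-- `W` is closed under commutators -/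
def IsLieS {p : ℕ} {R : Type*} [Ring R] [Algebra (ZMod p) R] (W : Submodule (ZMod p) R) : Prop :=
  ∀ x ∈ W, ∀ y ∈ W, x * y - y * x ∈ W

/-- a polynomial function of degree at most `D` with the coefficients `r0`, `r1` of degree 0, 1 -/
def PF (p : ℕ) {R : Type*} [Ring R] [Algebra (ZMod p) R] (D : ℕ) (φ : ℕ → R) (r0 r1 : R) : Prop :=
  ∃ r : ℕ → R, r 0 = r0 ∧ r 1 = r1 ∧
    ∀ N : ℕ, φ N = ∑ i ∈ Finset.range (D + 1), ((N : ZMod p) ^ i) • r i

end MP_b83a82_al.LP
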