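import Pool.Agent.Lib.MP_b83a82_al.LP.Asm
import Pool.Agent.Lib.MP_b83a82_al.LP.P.BCL
import Pool.Agent.Lib.MP_b83a82_al.LP.P.UIN
import Pool.Agent.Lib.MP_b83a82_al.LP.P.TR1
import Pool.Agent.Lib.MP_b83a82_al.LP.P.TR2
import Pool.Agent.Lib.MP_b83a82_al.LP.P.STR
import Pool.Agent.Lib.MP_b83a82_al.LP.P.INE
import Pool.Agent.Lib.MP_b83a82_al.LP.P.ALG
import Pool.Agent.Lib.MP_b83a82_al.LP.P.SLO
import Pool.Agent.Lib.MP_b83a82_al.LP.P.MIN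
import Pool.Agent.Lib.MP_b83a82_al.LP.P.BND
import Pool.Agent.Lib.MP_b83a82_al.LP.P.DDC
import Pool.Agent.Lib.MP_b83a82_al.LP.P.DER
import Pool.Agent.Lib.MP_b83a82_al.LP.P.ROT
import Pool.Agent.Lib.MP_b83a82_al.LP.P.OFF
import Pool.Agent.Lib.MP_b83a82_al.LP.P.ASA
import Pool.Agent.Lib.MP_b83a82_al.LP.P.LEF
import Pool.Agent.Lib.MP_b83a82_al.LP.P.ENC
import Pool.Agent.Lib.MP_b83a82_al.LP.P.OPT
import Pool.Agent.Lib.MP_b83a82_al.LP.P.COM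
import Pool.Agent.Lib.MP_b83a82_al.LP.P.AFL
import Pool.Agent.Lib.MP_b83a82_al.LP.P.UNQ
import Pool.Agent.Lib.MP_b83a82_al.LP.P.FRO
import Pool.Agent.Lib.MP_b83a82_al.LP.P.DES
import Pool.Agent.Lib.MP_b83a82_al.LP.P.SLB
import Pool.Agent.Lib.MP_b83a82_al.LP.P.ASC
import Pool.Agent.Lib.MP_b83a82_al.LP.P.EXA
import Pool.Agent.Lib.MP_b83a82_al.LP.P.LOG
import Pool.Agent.Lib.MP_b83a82_al.LP.P.EXB
import Pool.Agent.Lib.MP_b83a82_al.LP.P.PFL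
import Pool.Agent.Lib.MP_b83a82_al.LP.P.ADX
import Pool.Agent.Lib.MP_b83a82_al.LP.P.LKK
import Pool.Agent.Lib.MP_b83a82_al.LP.P.LIE
import Pool.Agent.Lib.MP_b83a82_al.LP.P.SEC
import Pool.Agent.Lib.MP_b83a82_al.LP.P.SEE
import Pool.Agent.Lib.MP_b83a82_al.LP.P.FLG
import Pool.Agent.Lib.MP_b83a82_al.LP.P.TRA
import Pool.Agent.Lib.MP_b83a82_al.LP.P.GRP
import Pool.Agent.Lib.MP_b83a82_al.LP.P.LM2
import Pool.Agent.Lib.MP_b83a82_al.LP.P.CI2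
import Pool.Agent.Lib.MP_b83a82_al.LP.P.SB2
import Pool.Agent.Lib.MP_b83a82_al.LP.P.ML2

set_option autoImplicit false

/-!
# LARGE PRIMES: the final theorem
-/

namespace MP_b83a82_al.LP

universe u

theorem rA : R_A :=
  asm_A p_BCL p_UIN p_TR1 p_TR2 p_STR p_INE p_ALG p_SLO p_MIN p_BND p_DDC p_DER p_ROT p_OFF p_ASA

theorem rC : R_C :=
  asm_C rA p_LEF p_ENC p_OPT p_COM p_AFL p_UNQ p_FRO p_DES p_SLB p_ASC

theorem rD : R_D.{u} :=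
  asm_D rC p_EXA p_LOG p_EXB p_PFL p_ADX p_LKK p_LIE p_SEC p_SEE p_FLG p_TRA p_GRP

theorem rE : R_ML2.{u} := asm_E p_LM2 p_CI2 p_SB2 p_ML2

theorem final : R_FIN.{u} := fin_of rD rE

end MP_b83a82_al.LP
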