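import Pool.Agent.Lib.MP_b83a82_al.LP.Defs

set_option autoImplicit false

/-!
# LARGE PRIMES, part A (helper26): weights for nilpotent Lie algebras over the complex numbers

Pieces: `theorem p_X : S_X` in the file `LP/P/X.lean` (`namespace MP_b83a82_al.LP`), auxiliary
lemmas `private` or with the prefix `X_`.

Theorem (`S_A`). Every nilpotent Lie algebra over `ℂ`, of dimension `n`, has a basis and real
weights `w` such that `w l ≥ w i + w j` whenever `c i j l ≠ 0`, `∑ w > 0`, `34 (∑ w)² ≥ n ∑ w²`.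
Proof: minimise `log |μ|² + κ |d|²` over the unitary frames `u` and the rescalings `d`; if there are no
such weights the minimum exists and has `|d| ≤ M`, and there `Q = B - 2A` is nearly scalar, which
contradicts the inequality `tr A² ≤ 2 tr ((B - A) Q)` (INE), true for every nilpotent Lie algebra and
every metric. Notation: `E i = adM c i` (so `[e_i, e_j] = ∑ l, (E i) l j e_l`), `F i = (E i)ᴴ`,
`N = nrm c = ∑ |c i j l|²`. All formulas were checked numerically.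
-/

open Matrix

namespace MP_b83a82_al.LP

/-- **BCL.** Base change. Proof. (1) The entry `(l, j)` of the right side is
`∑ s, ∑ b, h l s * (∑ a, g a i * c a b s) * g b j`. (2) From (1) (or directly). (3) `h * g = 1` too
(`mul_eq_one_comm`). alt: from the definition (exchange the sums over `a`, `b`). jac: by (1) with
`E' i = h * (∑ a, g a i • E a) * g` and `g * h = 1`:
`E' i * E' j - E' j * E' i = h * (∑ a b, g a i * g b j • (E a * E b - E b * E a)) * g
= ∑ s, (∑ a b, g a i g b j c a b s) • h * E s * g`, and `E s = ∑ t, (∑ a, g a t * h t s) • E a`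
(as `g * h = 1`). nil: a product of `K` matrices `h * X_t * g` is `h * (∏ X_t) * g` (if `K = 0` then
`1 = 0`), with `X_t` in the span `T` of the `E a`; `T ^ K = ⊥` by `Submodule.span_pow` and
`Set.mem_pow` (its elements are the products `(List.ofFn ..).prod`), and the product of the `X_t` is in
`T ^ K` (`Submodule.pow_mem..`, or induction). (4), (5): from the definition. -/
def S_BCL : Prop := ∀ (k : Type) [CommRing k] (n : ℕ) (c : SC n k) (g h : Matrix (Fin n) (Fin n) k),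
  (∀ i, adM (bc c g h) i = h * (∑ a, g a i • adM c a) * g) ∧
  (∀ g' h' : Matrix (Fin n) (Fin n) k, bc (bc c g h) g' h' = bc c (g * g') (h' * h)) ∧
  (∀ K : ℕ, g * h = 1 → LieC K c → LieC K (bc c g h)) ∧ bc c 1 1 = c ∧
  (∀ d d' : Fin n → k, bc c (diagonal d) (diagonal d') = fun i j l => d i * d j * c i j l * d' l)

/-- **UIN.** Unitary invariance. Proof. By BCL (1) `adM (bc c u uᴴ) i = uᴴ * (∑ a, u a i • E a) * u`, so
`mA (bc c u uᴴ) = uᴴ * (∑ a b, (∑ i, star (u a i) * u b i) • F a * E b) * u`, and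
`∑ i, star (u a i) * u b i` is `1` if `a = b` and `0` otherwise (`u * uᴴ = 1`); `mB` in the same way.
`nrm c = trace (mA c)`: `trace (F i * E i) = ∑ j l, |c i j l|²`; same for `mB`. -/
def R_UIN : Prop := ∀ (n : ℕ) (c : SC n ℂ),
  ((nrm c : ℝ) : ℂ) = trace (mA c) ∧ ((nrm c : ℝ) : ℂ) = trace (mB c) ∧
  ∀ u : Matrix (Fin n) (Fin n) ℂ, Un u → mA (bc c u uᴴ) = uᴴ * mA c * u ∧
    mB (bc c u uᴴ) = uᴴ * mB c * u ∧ mQ (bc c u uᴴ) = uᴴ * mQ c * u ∧ nrm (bc c u uᴴ) = nrm c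

/-- The piece UIN. -/
def S_UIN : Prop := S_BCL → R_UIN

/-- **TR1.** Proof. For a family `T = (T y)` of matrices put
`(act X T) y = X * T y - T y * X - ∑ a, X a y • T a`, and `⟨T, S⟩ = ∑ y, trace (T y * (S y)ᴴ)`. Then
(i) `⟨act X T, S⟩ = ⟨T, act Xᴴ S⟩`; (ii) `act X (act Y T) - act Y (act X T) = act (X * Y - Y * X) T`;
(iii) `act (E x) E = 0` (Jacobi: `(E x) a y = c x y a`); (iv) `⟨act X E, E⟩ = trace (X * mQ c)`:
the three terms are `tr (X ∑ E y F y) = tr (X B)`, `tr (X ∑ F y E y) = tr (X A)` and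
`∑ a y, X a y * tr (E a * F y)`, where `tr (E a * F y) = A y a` by `alt`, so again `tr (X A)`. Hence, as
`mR c x = act (F x) E`: `∑ y, tr (mR c x y * (mR c x y)ᴴ) = ⟨act (F x) E, act (F x) E⟩ =
⟨act (E x) (act (F x) E), E⟩ = ⟨act (E x * F x - F x * E x) E, E⟩ = tr ((E x F x - F x E x) Q)` by (i)
(`act (F x)` has the adjoint `act (E x)`), (ii), (iii), (iv). Sum over `x`. -/
def S_TR1 : Prop := ∀ (n K : ℕ) (c : SC n ℂ), LieC K c →
  ∑ x, ∑ y, trace (mR c x y * (mR c x y)ᴴ) = trace ((mB c - mA c) * mQ c)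

/-- **TR2.** Proof. `T x y = ∑ a, (F x) a y • E a`. `(F x) a y = star (c x a y)` is zero unless `x < y`, so
`T x y = 0` for `y ≤ x`. For `x < y`: `mR c y x = F y * E x - E x * F y`,
`mR c x y = (F x * E y - E y * F x) - T x y`, and `F x * E y - E y * F x = (F y * E x - E x * F y)ᴴ`. So
`T x y = (mR c y x)ᴴ - mR c x y` and `|T x y|² ≤ 2 |mR c y x|² + 2 |mR c x y|²`
(`|Z|² = re (trace (Z * Zᴴ)) = ∑ |Z i j|²`; `|(mR c y x)ᴴ|² = |mR c y x|²`). Sum over all `x < y`: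
`∑ x y, |T x y|² ≤ 2 ∑ x y, |mR c x y|²`. The left side is
`∑ x y a b, (F x) a y * star ((F x) b y) * tr (E a * F b) = ∑ a b, (∑ x, F x * E x) a b * A b a =
tr (A * A)`, as `tr (E a * F b) = A b a` (`alt`) and `(F x)ᴴ = E x`. -/
def S_TR2 : Prop := ∀ (n K : ℕ) (c : SC n ℂ), LieC K c →
  (∀ i j l, c i j l ≠ 0 → i < l ∧ j < l) →
  (trace (mA c * mA c)).re ≤ 2 * (∑ x, ∑ y, trace (mR c x y * (mR c x y)ᴴ)).re

/-- **STR.** Proof. Induction on `n`; `n = 0` is trivial. `n + 1`: the empty product is `1 ≠ 0`, so there is a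
maximal `r < K` such that some product `P` of `r` of the matrices is nonzero; let `P x ≠ 0` and `v` the
vector `P x` divided by its norm: `E i v = 0` for all `i`. Let `u₁` be a unitary matrix with last
column `v` (extend `v` to an orthonormal basis). Then `u₁ᴴ * E i * u₁` has zero last column: it is
`[[E' i, 0], [*, 0]]`; the products of `K` of the `E' i` are the upper left corners of the products of
the `u₁ᴴ * E i * u₁`, so zero; by induction there is `u'`; put `u = u₁ * [[u', 0], [0, 1]]`. -/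
def S_STR : Prop := ∀ (n K : ℕ) (ι : Type) (E : ι → Matrix (Fin n) (Fin n) ℂ),
  (∀ f : Fin K → ι, (List.ofFn fun t => E (f t)).prod = 0) →
  ∃ u : Matrix (Fin n) (Fin n) ℂ, Un u ∧ ∀ i l j, (uᴴ * E i * u) l j ≠ 0 → j < l

/-- **INE.** Proof. `u` from STR for `E = adM c`. `c' = bc c u uᴴ` is `LieC K` (BCL), and
`adM c' i = ∑ a, u a i • (uᴴ * E a * u)` (BCL (1)), so `c' i j l = (adM c' i) l j ≠ 0` implies `j < l`,
and `i < l` by `alt`. TR2, TR1 for `c'`, and UIN: the traces of `mA c' * mA c'` and of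
`(mB c' - mA c') * mQ c'` are those for `c` (`uᴴ X u uᴴ Y u = uᴴ X Y u`, cyclicity of the trace). -/
def R_INE : Prop := ∀ (n K : ℕ) (c : SC n ℂ), LieC K c →
  (trace (mA c * mA c)).re ≤ 2 * (trace ((mB c - mA c) * mQ c)).re

/-- The piece INE. -/
def S_INE : Prop := S_BCL → R_UIN → S_TR1 → S_TR2 → S_STR → R_INE

/-- **ALG.** If `Q` is nearly scalar then not all is well. Proof. `N = nrm c`, `a x = (mA c x x).re`
(`mA c` is hermitian: `mA c x y = star (mA c y x)`, `a x ≥ 0`), `∑ a x = N` (UIN). `B - A = Q + A`. With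
`Q = diagonal (-N/n + t x)`, `t x = κ N d x`, `∑ t x = 0`:
`re tr ((Q + A) * Q) = ∑ (-N/n + t x)² + ∑ a x (-N/n + t x) = ∑ t x² + ∑ a x t x` (as
`∑ (N/n)² = N²/n = (N/n) ∑ a x`). `re tr (A * A) = ∑ x y, |A x y|² ≥ ∑ a x²`. INE:
`∑ a x² ≤ 2 ∑ t x² + 2 ∑ a x t x ≤ 4 ∑ t x² + (1/2) ∑ a x²`, so `∑ a x² ≤ 8 ∑ t x²`; and
`N² = (∑ a x)² ≤ n ∑ a x²` (`sq_sum_le_card_mul_sum_sq`). So `N² ≤ 8 n κ² N² ∑ d x²`. -/
def R_ALG : Prop := ∀ (n K : ℕ) (c : SC n ℂ) (κ : ℝ) (d : Fin n → ℝ), 0 < n →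
  LieC K c → 0 < nrm c → ∑ x, d x = 0 →
  mQ c = diagonal (fun x => ((-(nrm c) / n + κ * nrm c * d x : ℝ) : ℂ)) →
  1 ≤ 8 * n * κ ^ 2 * ∑ x, d x ^ 2

/-- The piece ALG. -/
def S_ALG : Prop := R_INE → R_UIN → R_ALG

/-- **SLO.** The slope. Proof. Put `σ = 2 / √(33 n)`. For `u` unitary and `δ` with `∑ δ = 0`, `∑ δ² = 1` there are
`i, j, l` with `bc c u uᴴ i j l ≠ 0` and `2 (δ i + δ j - δ l) + σ > 0`: otherwise `w = δ + σ / 2` is
admissible for `bc c u uᴴ` (`δ l ≥ δ i + δ j + σ / 2` whenever the constant is nonzero) and good: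
`∑ w = n σ / 2 > 0`, `n ∑ w² = n (1 + n σ² / 4) = n (1 + 1/33) = 34 n² σ² / 4 = 34 (∑ w)²`, so
`HasGood c` (with `g = u`, `h = uᴴ`). So the continuous function
`max over (i, j, l) of min (‖bc c u uᴴ i j l‖²) (2 (δ i + δ j - δ l) + σ)` is positive on the compact
set of all these `(u, δ)`, so at least some `ε > 0` (`ε = 1` if the set is empty; continuity of
`u ↦ bc c u uᴴ i j l`: a finite sum of products of entries of `u` and of `star` of entries; the set of
the unitary matrices is closed, with entries of norm at most `1`). For `d ≠ 0`, `∑ d = 0`, take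
`r = √(∑ d²)`, `δ = d / r`: `nrm (ud c u d) ≥ ‖bc c u uᴴ i j l‖² exp (2 r (δ i + δ j - δ l)) ≥
ε exp (- σ r)`. For `d = 0` use that `nrm (bc c u uᴴ) > 0` is continuous on the compact set of the
unitary matrices (it is zero only if all the constants are zero, and then `w = 1` is good). -/
def S_SLO : Prop := ∀ (n : ℕ) (c : SC n ℂ), 0 < n → ¬ HasGood c → ∃ ε : ℝ, 0 < ε ∧
  ∀ (u : Matrix (Fin n) (Fin n) ℂ) (d : Fin n → ℝ), Un u → ∑ i, d i = 0 →
    ε * Real.exp (-(2 / Real.sqrt (33 * n)) * Real.sqrt (∑ i, d i ^ 2)) ≤ nrm (ud c u d)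

/-- **MIN.** Existence of the minimum. Proof. `Ph c κ u d ≥ log ε - σ r + κ r²`, `r = √(∑ d²)`, which is larger than
`Ph c κ 1 0` for `r > R`, some `R`. `Ph c κ` is continuous on the compact set of the `(u, d)`, `u` unitary,
`∑ d = 0`, `∑ d² ≤ R²` (`nrm (ud c u d)` is continuous and positive there), so it has a minimum there,
at most `Ph c κ 1 0`. -/
def S_MIN : Prop := ∀ (n : ℕ) (c : SC n ℂ) (ε σ κ : ℝ), 0 < ε → 0 < σ → 0 < κ →
  (∀ (u : Matrix (Fin n) (Fin n) ℂ) (d : Fin n → ℝ), Un u → ∑ i, d i = 0 →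
    ε * Real.exp (-σ * Real.sqrt (∑ i, d i ^ 2)) ≤ nrm (ud c u d)) →
  ∃ (u : Matrix (Fin n) (Fin n) ℂ) (d : Fin n → ℝ), IsMin c κ u d

/-- **BND.** The minimum is not far away. Proof. Let `b = 2 (d i + d j - d l)`, `a = ‖bc c u uᴴ i j l‖²` for the triples
`(i, j, l)`; `nrm (ud c u (t d)) = ∑ a exp (t b) =: N t`. `φ t = log (N t) + κ t² r²`, `r² = ∑ d²`, has its
minimum at `t = 1`, so `N' 1 / N 1 + 2 κ r² = 0` (`IsLocalMin.hasDerivAt_eq_zero`). Put
`A = N' 1 / N 1 = - 2 κ r²`. `exp (-b) ≥ exp (-A) * (1 - (b - A))`, so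
`N 0 = ∑ a exp b exp (-b) ≥ exp (-A) * (N 1 - N' 1 + A * N 1) = exp (-A) * N 1`, i.e.
`log (nrm c) ≥ log (N 1) + 2 κ r² ≥ log ε - σ r + 2 κ r²` (`N 0 = nrm c` by UIN). If `r > M` then
`2 κ r² = 2 σ r² / M > 2 σ r`, so `log (nrm c) - log ε > σ r > σ M`, a contradiction. -/
def R_BND : Prop := ∀ (n : ℕ) (c : SC n ℂ) (ε σ M : ℝ), 0 < ε → 0 < σ → 0 < M →
  (∀ (u : Matrix (Fin n) (Fin n) ℂ) (d : Fin n → ℝ), Un u → ∑ i, d i = 0 →
    ε * Real.exp (-σ * Real.sqrt (∑ i, d i ^ 2)) ≤ nrm (ud c u d)) →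
  Real.log (nrm c) - Real.log ε ≤ σ * M →
  ∀ (u : Matrix (Fin n) (Fin n) ℂ) (d : Fin n → ℝ), IsMin c (σ / M) u d → ∑ i, d i ^ 2 ≤ M ^ 2

/-- The piece BND. -/
def S_BND : Prop := R_UIN → R_BND

/-- **DDC.** The diagonal entries of `Q` at a minimum in `d`. Proof. `N d' = nrm (sc c d') =
∑ |c i j l|² exp (2 (d' i + d' j - d' l))`. For `δ` with `∑ δ = 0` the derivative of
`t ↦ log N (d + t δ) + κ ∑ (d + t δ)²` at `0` is zero. The derivative of `N (d + t δ)` is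
`∑ |c' i j l|² 2 (δ i + δ j - δ l) = - 2 ∑ x, δ x * q x`, `q x = (mQ c' x x).re`, `c' = sc c d` (as
`(mA c' x x).re = ∑ i l, |c' i x l|² = ∑ j l, |c' x j l|²` by `alt` and
`(mB c' x x).re = ∑ i j, |c' i j x|²`). So `- 2 q x / N + 2 κ d x` is the same number `λ` for all `x`
(take `δ = e_x - e_y`); sum over `x`: `n λ = - 2 (∑ q x) / N = 2` (`∑ q = N - 2 N`). `mQ c' x x` is
real because `mQ c'` is hermitian. -/
def S_DDC : Prop := ∀ (n : ℕ) (c : SC n ℂ) (κ : ℝ) (d : Fin n → ℝ), 0 < n →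
  (∀ i j l, c i j l = -c j i l) → 0 < nrm (sc c d) → ∑ i, d i = 0 →
  (∀ d' : Fin n → ℝ, ∑ i, d' i = 0 → Real.log (nrm (sc c d)) + κ * ∑ i, d i ^ 2 ≤
    Real.log (nrm (sc c d')) + κ * ∑ i, d' i ^ 2) →
  ∀ x, mQ (sc c d) x x =
    ((-(nrm (sc c d)) / n + κ * nrm (sc c d) * d x : ℝ) : ℂ)

/-- **DER.** The derivative of the norm under a change of basis. Proof. By BCL (1)
`adM (bc c (g t) (h t)) i = h t * (∑ a, g t a i • E a) * g t`; the derivative of all its entries at `0` is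
the matrix `D i = -X * E i + (∑ a, X a i • E a) + E i * X` (product rule for finite sums of products). So
the derivative of `nrm = ∑ i, ∑ entries |.|²` is
`2 re ∑ i, tr (D i * F i) = - 2 re (tr (X B) - tr (X A) - ∑ a i, X a i tr (E a * F i))`, and
`tr (E a * F i) = A i a` (`alt`). -/
def R_DER : Prop := ∀ (n : ℕ) (c : SC n ℂ) (g h : ℝ → Matrix (Fin n) (Fin n) ℂ)
  (X : Matrix (Fin n) (Fin n) ℂ), (∀ i j l, c i j l = -c j i l) → g 0 = 1 → h 0 = 1 →
  (∀ i j, HasDerivAt (fun t => g t i j) (X i j) 0) →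
  (∀ i j, HasDerivAt (fun t => h t i j) (-X i j) 0) →
  HasDerivAt (fun t => nrm (bc c (g t) (h t))) (-2 * (trace (X * mQ c)).re) 0

/-- The piece DER. -/
def S_DER : Prop := S_BCL → R_DER

/-- **ROT.** Off-diagonal entries, different `d`. Proof. `D = diagonal (exp d)`. `sc c' d = bc c' D D⁻¹` (BCL (5)), so by
BCL (2) for a unitary `W`: `ud c (u * W) d = bc (ud c u d) (D⁻¹ * W * D) (D⁻¹ * Wᴴ * D)`. Let `W t` be the
rotation by `t` in the plane of `e_x`, `e_y`: entries `xx: cos t`, `yy: cos t`, `xy: sin t`, `yx: -sin t`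
(the others as in `1`), or `xx, yy: cos t`, `xy, yx: i sin t`. `nrm (ud c (u * W t) d) ≥ nrm (ud c u d)`
(minimality; `log` is increasing, and `nrm (ud c u d) > 0` as otherwise `Ph` has junk value: this is
a hypothesis). DER: `re tr (X * Q) = 0` for `X = D⁻¹ * W'(0) * D`, `Q = mQ (ud c u d)` (hermitian). With
`e = exp (d y - d x)`: first `X x y = e`, `X y x = - e⁻¹`, so `re (Q x y) * (e - e⁻¹) = 0`; second
`X x y = i e`, `X y x = i e⁻¹`, so `im (Q x y) * (e - e⁻¹) = 0`. As `d x ≠ d y`, `e ≠ e⁻¹`. -/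
def R_ROT : Prop := ∀ (n : ℕ) (c : SC n ℂ) (κ : ℝ)
  (u : Matrix (Fin n) (Fin n) ℂ) (d : Fin n → ℝ), (∀ i j l, c i j l = -c j i l) →
  IsMin c κ u d → (∀ u' : Matrix (Fin n) (Fin n) ℂ, Un u' → 0 < nrm (ud c u' d)) →
  ∀ x y, d x ≠ d y → mQ (ud c u d) x y = 0

/-- The piece ROT. -/
def S_ROT : Prop := R_DER → S_BCL → R_ROT

/-- **OFF.** Off-diagonal entries, equal `d`. Proof. Let `v` be a unitary matrix that commutes with `D = diagonal (exp d)`.
As in ROT `ud c (u * v) d = bc (ud c u d) v vᴴ`, so it has the same norm (UIN), and `(u * v, d)` is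
again a minimum of `Ph c κ`. DDC for `bc c (u * v) (u * v)ᴴ` and `d` (alt by definition of `bc`), and UIN:
`(vᴴ * Q * v) x x = -N/n + κ N d x`, `Q = mQ (ud c u d)`. Take `v = 1`; and `v` with column `x` equal to
`(e_x + e_y) / √2`, or `(e_x + i e_y) / √2`, and column `y` equal to `(e_x - e_y) / √2`, or
`(i e_x + e_y) / √2`, the other columns as in `1` (they commute with `D` because `d x = d y`). So
`(Q x x + Q y y + Q x y + Q y x) / 2 = Q x x = Q y y`, i.e. `Q x y + Q y x = 0`, and similarly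
`i (Q x y - Q y x) = 0` (up to sign). -/
def R_OFF : Prop := ∀ (n : ℕ) (c : SC n ℂ) (κ : ℝ)
  (u : Matrix (Fin n) (Fin n) ℂ) (d : Fin n → ℝ), (∀ i j l, c i j l = -c j i l) →
  IsMin c κ u d → (∀ u' : Matrix (Fin n) (Fin n) ℂ, Un u' → 0 < nrm (ud c u' d)) →
  ∀ x y, x ≠ y → d x = d y → mQ (ud c u d) x y = 0

/-- The piece OFF. -/
def S_OFF : Prop := S_DDC → R_UIN → S_BCL → R_OFF

/-- **ASA.** Assembly of part A. Proof. Suppose `¬ HasGood c`. `ε` from SLO, `σ = 2 / √(33 n)`; so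
`nrm (ud c u d) > 0` for all unitary `u` and all `d` with `∑ d = 0`. `M > 0` with
`log (nrm c) - log ε ≤ σ M`, `κ = σ / M`. `(u, d)` from MIN; `∑ d² ≤ M²` by BND. `c' = ud c u d` is
`LieC K` (`= bc (bc c u uᴴ) D D⁻¹`, BCL). `mQ c'` is diagonal (ROT, OFF), with the entries of DDC. ALG:
`1 ≤ 8 n κ² ∑ d² ≤ 8 n σ² = 32/33`. -/
def R_A : Prop := ∀ (n K : ℕ) (c : SC n ℂ), 0 < n → LieC K c → HasGood c

/-- The piece ASA. -/
def S_ASA : Prop := S_BCL → R_ALG → S_SLO → S_MIN → R_BND → S_DDC → R_ROT → R_OFF → R_A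

end MP_b83a82_al.LP
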