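import Pool.Agent.Lib.MP_b83a82_al.LP.Stm1

set_option autoImplicit false

/-!
# LARGE PRIMES, parts B and C (helper26): large characteristic, descent to the prime field

Part B: by the Lefschetz principle `R_A` holds over the algebraic closure of `ZMod p` for all `p`
large compared with `n`, `K`. Part C: the optimal filtration is unique, so it is stable under the
Frobenius and defined over `ZMod p`; one of its slabs is a large abelian section.
-/

open Matrix Module

namespace MP_b83a82_al.LP

/-! ### Part B -/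

/-- **LEF.** The Lefschetz principle for `∀ ∃` statements about solutions of equations over `ℤ`. Proof.
Mathlib: `ModelTheory/Algebra/Field/IsAlgClosed.lean` (`ACF_isComplete`,
`finite_ACF_prime_not_realize_of_ACF_zero_realize`), `Field/CharP.lean`, `Ring/FreeCommRing.lean`;
`FieldTheory/AxGrothendieck.lean` shows how to write such sentences (`Formula.iAlls`,
`Formula.iExs`, `termOfFreeCommRing`, `realize_termOfFreeCommRing`; the equivalence of
`FreeCommRing α` and `MvPolynomial α ℤ` is `freeCommRingEquivMvPolynomialInt`). The sentence `φ`: for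
all values of the variables in `α`: if all `P i` vanish then there are values of the variables in `β`
such that for some `t` all the `Q j`, `j ∈ T t`, vanish (finite conjunctions and disjunctions:
`BoundedFormula.iInf`, `iSup`, or the quantifier over `t` as a disjunction of a list). It is true in `ℂ`,
so in all models of `ACF 0` (completeness), so it follows from `ACF p` for all but finitely many `p`,
and `AlgebraicClosure (ZMod p)` is a model of `ACF p`. -/
def S_LEF : Prop := ∀ (α β ι J κ : Type) [Finite α] [Finite β] [Finite ι] [Finite J] [Finite κ]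
  (P : ι → MvPolynomial α ℤ) (Q : J → MvPolynomial (α ⊕ β) ℤ) (T : κ → Set J),
  (∀ v : α → ℂ, (∀ i, MvPolynomial.aeval v (P i) = 0) → ∃ (w : β → ℂ) (t : κ),
    ∀ j ∈ T t, MvPolynomial.aeval (Sum.elim v w) (Q j) = 0) →
  ∃ p₀ : ℕ, ∀ (p : ℕ) [Fact p.Prime], p₀ ≤ p → ∀ v : α → AlgebraicClosure (ZMod p),
    (∀ i, MvPolynomial.aeval v (P i) = 0) → ∃ (w : β → AlgebraicClosure (ZMod p)) (t : κ),
      ∀ j ∈ T t, MvPolynomial.aeval (Sum.elim v w) (Q j) = 0

/-- **ENC.** Proof. `α` = triples `Fin n × Fin n × Fin n`; `C : SC n (MvPolynomial α ℤ)`, `C i j l = X (i, j, l)`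
the generic structure constants. The `P`'s: `C i j l + C j i l`, the entries of
`adM C i * adM C j - adM C j * adM C i - ∑ s, C i j s • adM C s` and of
`(List.ofFn fun t => adM C (f t)).prod`: a point `v` is a common zero iff `LieC K` holds for
`c i j l = v (i, j, l)` (the ring homomorphism `aeval v` maps `adM C i` to `adM c i`: `RingHom.mapMatrix`,
`map_list_prod`). `β` = two copies of `Fin n × Fin n` (entries of `g`, `h`). The `Q`'s: the entries of
`g * h - 1` and of `bc C g h`. `κ` = the sets `Z` of triples for which there is a good `w` with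
`w i + w j ≤ w l` for all `(i, j, l) ∉ Z`; `T Z` = the entries of `g * h - 1` and those of `bc C g h` in
`Z`. -/
def R_B : Prop := ∀ n K : ℕ, 0 < n → ∃ p₀ : ℕ, ∀ (p : ℕ) [Fact p.Prime], p₀ ≤ p →
  ∀ c : SC n (AlgebraicClosure (ZMod p)), LieC K c → HasGood c

/-- The piece ENC. -/
def S_ENC : Prop := S_LEF → R_A → R_B

/-! ### Part C -/

/-- **OPT.** Existence of an optimal filtration. Proof. `Ω` = the set of the `w` with `∑ w² = 1` for which there are
`g * h = 1` with `Adm (bc c g h) w`. It is compact: it is the union, over the finitely many sets `Z` of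
triples such that some `bc c g h`, `g * h = 1`, vanishes outside `Z`, of the closed and bounded sets
`{w | ∑ w² = 1 ∧ ∀ (i, j, l) ∈ Z, w i + w j ≤ w l}`. The good weights of `HasGood c` divided by
`√(∑ w²) > 0` are in `Ω`. Let `w` be a point of `Ω` with the largest `∑ w`; it is positive, and
`(∑ w)² ≥ (∑ w')² / ∑ w'²` for all admissible `w'` with `∑ w' > 0` (scale `w'`); in particular `w` is
good. -/
def S_OPT : Prop := ∀ (k : Type) [Field k] (n : ℕ) (c : SC n k), 0 < n → HasGood c →
  ∃ (g h : Matrix (Fin n) (Fin n) k) (w : Fin n → ℝ), Opt c g h w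

/-- **COM.** Two filtrations have a common adapted basis. Proof. Permuting the columns of `g` (and the rows of `h`)
and `w` in the same way does not change `fil g w a`; so let `w` and `w'` be antitone. Let `E i` be the
span of the first `i` columns of `g` (`dim E i = i`), `E' j` that of the first `j` columns of `g'`;
`fil g w a = E m`, `m = #{i | a ≤ w i}`. For `i : Fin n` let `π i` be the least `j : Fin n` such that
`E (i+1) ⊓ E' (j+1)` is not contained in `E i`, and `f i` an element of `E (i+1) ⊓ E' (π i + 1)` that is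
not in `E i`. `f i ∉ E' (π i)` by minimality. `π` is injective: if `π i = π i' = j`, `i < i'`, then some
`f i' - λ f i` is in `E' j` (as `dim E' (j+1) / E' j = 1` and `f i ∉ E' j`), and it is in `E (i'+1)` and
not in `E i'`, so `π i' < j`. So `π` is a permutation. `E m` is the span of the `f i`, `i < m`
(induction: `E (i+1)` is the sum of `E i` and the line of `f i`), and `E' m` is the span of the `f i`
with `π i < m`. Take the `f i` as the columns of the matrix `f`, `u = w`, `u' = w' ∘ π`. -/
def S_COM : Prop := ∀ (k : Type) [Field k] (n : ℕ) (g h g' h' : Matrix (Fin n) (Fin n) k)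
  (w w' : Fin n → ℝ), g * h = 1 → g' * h' = 1 →
  ∃ (f f' : Matrix (Fin n) (Fin n) k) (u u' : Fin n → ℝ), f * f' = 1 ∧
    (∃ σ : Equiv.Perm (Fin n), u = w ∘ σ) ∧ (∃ σ : Equiv.Perm (Fin n), u' = w' ∘ σ) ∧
    (∀ a, fil f u a = fil g w a) ∧ ∀ a, fil f u' a = fil g' w' a

/-- **AFL.** Admissible weights and filtrations. Proof. The bracket of the columns `i` and `j` of `g` is
`∑ l, bc c g h i j l • (column l of g)` (`g * h = 1`), and `br c` is bilinear. So one direction is
span induction twice. Conversely the bracket of the columns `i`, `j` is in `fil g w (w i + w j)`, the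
span of the columns `l` with `w l ≥ w i + w j`; multiply with `h` on the left: the coordinate `l` is
`bc c g h i j l`, and it is zero if `w l < w i + w j`. -/
def S_AFL : Prop := ∀ (k : Type) [Field k] (n : ℕ) (c : SC n k) (g h : Matrix (Fin n) (Fin n) k)
  (w : Fin n → ℝ), g * h = 1 →
  (Adm (bc c g h) w ↔ ∀ a b : ℝ, ∀ x ∈ fil g w a, ∀ y ∈ fil g w b, br c x y ∈ fil g w (a + b))

/-- **UNQ.** Uniqueness. Proof. `f`, `f'`, `u`, `u'` from COM. By AFL (both directions) `Adm (bc c f f') u` and
`Adm (bc c f f') u'`, so `Adm (bc c f f') (u + u')`. `∑ u = ∑ u' = ∑ w =: s > 0`,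
`∑ u² = ∑ u'² = ∑ w² =: z`. Optimality: `(2 s)² z ≤ s² ∑ (u + u')²`, so `4 z ≤ ∑ (u + u')²`, and
`∑ (u - u')² = 4 z - ∑ (u + u')² ≤ 0`: `u = u'`. -/
def R_UNQ : Prop := ∀ (k : Type) [Field k] (n : ℕ) (c : SC n k)
  (g h g' h' : Matrix (Fin n) (Fin n) k) (w w' : Fin n → ℝ), Opt c g h w → g' * h' = 1 →
  Adm (bc c g' h') w' → ∑ i, w' i = ∑ i, w i → ∑ i, w' i ^ 2 = ∑ i, w i ^ 2 →
  ∀ a, fil g' w' a = fil g w a

/-- The piece UNQ. -/
def S_UNQ : Prop := S_COM → S_AFL → R_UNQ

/-- the structure constants over the algebraic closure -/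
noncomputable def ext (p : ℕ) [Fact p.Prime] {n : ℕ} (c : SC n (ZMod p)) :
    SC n (AlgebraicClosure (ZMod p)) := fun i j l => algebraMap (ZMod p) _ (c i j l)

/-- **FRO.** The optimal filtration is stable under the Frobenius. Proof. `φ = frobenius k p`. `φ` fixes the
constants, so `bc (ext p c) (g.map φ) (h.map φ) i j l = φ (bc (ext p c) g h i j l)`; so `w` is
admissible for `g.map φ`, and by UNQ `fil (g.map φ) w a = fil g w a`. If `x` is a combination of the
columns `i` of `g` with `w i ≥ a` then the vector `φ x` is a combination of the columns of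
`g.map φ`. -/
def R_FRO : Prop := ∀ (p : ℕ) [Fact p.Prime] (n : ℕ) (c : SC n (ZMod p))
  (g h : Matrix (Fin n) (Fin n) (AlgebraicClosure (ZMod p))) (w : Fin n → ℝ),
  Opt (ext p c) g h w → ∀ a, ∀ x ∈ fil g w a, (fun r => x r ^ p) ∈ fil g w a

/-- The piece FRO. -/
def S_FRO : Prop := R_UNQ → R_FRO

/-- **DES.** Subspaces stable under the Frobenius are defined over `ZMod p`. Proof. `k` the algebraic closure, `W₀`
the set of the `x : Fin n → ZMod p` whose image in `k ^ n` is in `W`. CLAIM: every `v ∈ W` is in the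
`k`-span of (the image of) `W₀`; induction on the number of nonzero coordinates. `v ≠ 0`; scale it so
that one coordinate is `1`. `v - v^p` (coordinatewise) is in `W` and has fewer nonzero coordinates, so
`v - v^p = ∑ c i • r i` with `r i ∈ W₀`. Let `d i` be a root of `X - X^p = c i` (algebraically closed,
degree `p`). Then `v' = v - ∑ d i • r i` satisfies `v'^p = v'`, so its coordinates are in `ZMod p`
(`x ^ p = x` has the `p` solutions in `ZMod p`: `ZMod.expand_card`, `FiniteField.X_pow_card_sub_X..` or
`frobenius` fixed points), and `v' ∈ W`: `v' ∈ W₀` and `v` is in the span. The dimensions: a basis of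
`W₀` stays linearly independent over `k` (`LinearIndependent` of vectors in `k ^ n` with coordinates in
`ZMod p`: matrix rank / a minor; or `Module.Basis.baseChange`, `LinearIndependent.map` etc.). -/
def S_DES : Prop := ∀ (p : ℕ) [Fact p.Prime] (n : ℕ)
  (W : Submodule (AlgebraicClosure (ZMod p)) (Fin n → AlgebraicClosure (ZMod p))),
  (∀ x ∈ W, (fun r => x r ^ p) ∈ W) → ∃ W₀ : Submodule (ZMod p) (Fin n → ZMod p),
    (∀ x, x ∈ W₀ ↔ (fun r => algebraMap (ZMod p) (AlgebraicClosure (ZMod p)) (x r)) ∈ W) ∧
    finrank (ZMod p) W₀ = finrank (AlgebraicClosure (ZMod p)) W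

/-- **SLB.** Slabs. Proof. Let `m` be the largest number of `i` with `t ≤ w i < 2 t` for some `t > 0`. For every
`t > 0` at most `m` indices have `t < w i ≤ 2 t` (take a `t'` a little larger). For `i` with `w i > 0`:
`∑ over j with 0 < w j ≤ w i of w j ≤ ∑ r ≥ 0, m 2^(-r) w i = 2 m w i` (the `j` with
`w j ∈ (2^(-r-1) w i, 2^(-r) w i]`; finitely many `r` occur). So with `P = {i | w i > 0}`:
`(∑ w)² ≤ (∑_P w)² ≤ 2 ∑_{i ∈ P} w i ∑_{j ∈ P, w j ≤ w i} w j ≤ 4 m ∑_P w² ≤ 4 m ∑ w²`. As `w` is good,
`n ∑ w² ≤ 34 * 4 m ∑ w²`, so `n ≤ 136 m` (`∑ w² > 0`). -/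
def S_SLB : Prop := ∀ (n : ℕ) (w : Fin n → ℝ), Good w →
  ∃ t : ℝ, 0 < t ∧ n ≤ 136 * (Finset.univ.filter fun i => t ≤ w i ∧ w i < 2 * t).card

/-- The theorem of part C: a large abelian section. -/
def R_C : Prop := ∀ n K : ℕ, 0 < n → ∃ p₀ : ℕ, ∀ (p : ℕ) [Fact p.Prime], p₀ ≤ p →
  ∀ c : SC n (ZMod p), LieC K c → ∃ M N : Submodule (ZMod p) (Fin n → ZMod p), N ≤ M ∧
    (∀ x ∈ M, ∀ y ∈ M, br c x y ∈ N) ∧
    n + 136 * finrank (ZMod p) N ≤ 136 * finrank (ZMod p) M

/-- **ASC.** Assembly of part C. Proof. `p₀` from R_B. `ext p c` is `LieC K` (the ring homomorphism `algebraMap`), so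
has good weights; `g`, `h`, `w` optimal (OPT). `t` from SLB. `M`, `N` from DES for `fil g w t` and
`fil g w (2 t)` (FRO). `N ≤ M` as `2 t ≥ t`. For `x, y ∈ M` the image of `br c x y` is the bracket of
the images, which is in `fil g w (t + t)` (AFL). `finrank (fil g w a)` is the number of `i` with
`a ≤ w i` (the columns of `g` are linearly independent), so the difference of the two dimensions is
the number of SLB. -/
def S_ASC : Prop := R_B → S_OPT → S_AFL → R_FRO → S_DES → S_SLB → R_C

end MP_b83a82_al.LP
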