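import Pool.Agent.Lib.MP_b83a82_al.LP.Stm2
import Pool.Agent.Lib.MP_b83a82_al.H82.Fin2

set_option autoImplicit false

/-!
# LARGE PRIMES, parts D and E (helper26): unipotent groups of small degree, products of groups

Part D: for `p` large a `p`-group of operators on a space of dimension at most `m` is the exponential
of a Lie algebra `W` over `ZMod p` (no Baker-Campbell-Hausdorff formula is needed), so the large
abelian section of part C gives a large elementary abelian section of the group. Part E: the bounds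
of helper82 (`H82/Lin5.lean`, `Fin2.lean`) with this input. General setting: `R` a finite algebra over
`ZMod p`, `J` a subspace with `J * J ≤ J`, `J ^ m = 0`, `2 m² ≤ p` (`NilJ`), so `x ^ m = 0` for `x ∈ J`;
`A` a finite group, `ρ : A →* R` injective with `ρ a - 1 ∈ J` for all `a`.
-/

open Polynomial Module

namespace MP_b83a82_al.LP

universe u

/-! ### Exponentials -/

/-- **EXA.** Proof. `tex p x * tex p y = ∑ i < a, j < b of x^i y^j / (i! j!)` (the other terms vanish), all `i + j` are at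
most `a + b - 2 < p`; `tex p (x + y) = ∑ r < p of ∑ i + j = r of x^i y^j / (i! j!)` (`Commute.add_pow'`,
`r! / (i! j!)` is the binomial coefficient, `r! ≠ 0` in `ZMod p` for `r < p`), and the terms with
`i ≥ a` or `j ≥ b` vanish. -/
def S_EXA : Prop := ∀ (p : ℕ) [Fact p.Prime] (R : Type u) [Ring R] [Algebra (ZMod p) R] (x y : R)
  (a b : ℕ), Commute x y → x ^ a = 0 → y ^ b = 0 → a + b ≤ p + 1 →
  tex p (x + y) = tex p x * tex p y

/-- **LOG.** Existence of the logarithm. Proof. Induction on `m ≥ 2`. `E = tex p X - 1 = X + X² / 2 + ...` (in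
`(ZMod p)[X]`; as `3 ≤ p`, or `p = m = 2` where `E = X`). `m = 2`: `q = X`. If `q` is given for `m`,
`q.comp E = X + X^m * r`, take `q - C (r.coeff 0) * X^m`: `E^m = X^m + X^(m+1) * (..)`. The coefficients
`0`, `1` do not change and the degree is at most `m`. -/
def S_LOG : Prop := ∀ (p m : ℕ) [Fact p.Prime], 2 ≤ m → m ≤ p → ∃ q : (ZMod p)[X], LogP p m q

/-- **EXB.** Exponential and logarithm are inverse bijections `J → 1 + J`. Proof. `J ^ (j+1) ≤ J`; `x ∈ J` implies `x ^ j ∈ J ^ j`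
(`Submodule.pow_mem_pow`), so `x ^ j ∈ J` for `j ≥ 1` and `x ^ m = 0`. First part: apply the
homomorphism `aeval x` to the identity of `LogP`: `aeval (tex p x - 1) q = x + x ^ m * .. = x`
(`Polynomial.aeval_comp`). So `x ↦ tex p x - 1` is an injective map from the finite set `J` to itself,
so it is onto: `g - 1 = tex p x - 1`, `x = aeval (g - 1) q`. -/
def S_EXB : Prop := ∀ (p m : ℕ) [Fact p.Prime] (R : Type u) [Ring R] [Algebra (ZMod p) R] [Finite R]
  (J : Submodule (ZMod p) R) (q : (ZMod p)[X]), NilJ p m J → LogP p m q →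
  (∀ x ∈ J, tex p x - 1 ∈ J ∧ aeval (tex p x - 1) q = x) ∧
  ∀ g : R, g - 1 ∈ J → aeval (g - 1) q ∈ J ∧ tex p (aeval (g - 1) q) = g

/-- **PFL.** Polynomial functions. Proof. (1) `D ≤ D'`: replace `r i` by `0` for `i > D` (`D ≥ 1`). (2) product
(replace `r i`, `s j` by `0` for `i > D`, `j > D'`, and take the Cauchy product of the coefficients), (3) sum, (4) scalars: clear. (5) `tex p (N • x)
= ∑ j < m of N^j • x^j / j!` if `x ^ m = 0` (as `m ≤ p`). (6) `aeval (z N) q = ∑ j ≤ m of q_j • z^j`,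
`q_0 = 0`, `q_1 = 1`; for `j ≥ 2` the coefficients of degree `0`, `1` of `z^j` are `0` (product rule
(2) with `r0 = 0`). (7) interpolation: `∑ over N in ZMod p of N^(p-2) • φ N = ∑ i ≤ D of
(∑ N, N^(p-2+i)) • r i = - r 1`, as `∑ N, N^s` is `-1` if `s > 0` is a multiple of `p - 1`, else `0`
(`FiniteField.sum_pow_..`); here `p - 2 + i` is `p - 1` for `i = 1` and never another multiple for
`i ≤ D < p` (`p ≥ 3`; sum over `N < p`, `N : ℕ`). -/
def S_PFL : Prop := ∀ (p : ℕ) [Fact p.Prime] (R : Type u) [Ring R] [Algebra (ZMod p) R],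
  (∀ (D D' : ℕ) (φ : ℕ → R) (r0 r1 : R), 1 ≤ D → D ≤ D' → PF p D φ r0 r1 → PF p D' φ r0 r1) ∧
  (∀ (D D' : ℕ) (φ ψ : ℕ → R) (r0 r1 s0 s1 : R), 1 ≤ D → 1 ≤ D' → PF p D φ r0 r1 →
    PF p D' ψ s0 s1 → PF p (D + D') (fun N => φ N * ψ N) (r0 * s0) (r0 * s1 + r1 * s0)) ∧
  (∀ (D : ℕ) (φ ψ : ℕ → R) (r0 r1 s0 s1 : R), PF p D φ r0 r1 → PF p D ψ s0 s1 →
    PF p D (fun N => φ N + ψ N) (r0 + s0) (r1 + s1)) ∧
  (∀ r : R, PF p 1 (fun _ => r) r 0) ∧
  (∀ (m : ℕ) (x : R), 2 ≤ m → m ≤ p → x ^ m = 0 →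
    PF p m (fun N => tex p ((N : ZMod p) • x)) 1 x) ∧
  (∀ (m D : ℕ) (q : (ZMod p)[X]) (z : ℕ → R) (r : R), 1 ≤ m → 1 ≤ D → q.coeff 0 = 0 →
    q.coeff 1 = 1 → q.natDegree ≤ m → PF p D z 0 r → PF p (m * D) (fun N => aeval (z N) q) 0 r) ∧
  ∀ (D : ℕ) (φ : ℕ → R) (r0 r1 : R) (W : Submodule (ZMod p) R), 3 ≤ p → 1 ≤ D → D < p →
    (∀ N, φ N ∈ W) → PF p D φ r0 r1 → r1 ∈ W

/-- **ADX.** Conjugation by exponentials. Proof. In the algebra `End R` let `L = LinearMap.mulLeft (ZMod p) x`,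
`T = LinearMap.mulRight (ZMod p) x`; they commute, `L ^ m = 0 = T ^ m`, so by EXA
`tex p (L - T) = tex p L * tex p (-T)`, and `tex p L * tex p (-T)` maps `y` to
`tex p x * y * tex p (-x)` (`tex p (mulLeft x) = mulLeft (tex p x)`, `tex p (- mulRight x) =
mulRight (tex p (-x))`). So `tex p x * y * tex p (-x) - y = ∑ j ≥ 1 of (1/j!) (L - T)^j y`, and
`(L - T) y = x * y - y * x ∈ M`, and `L - T` maps `M` to itself. -/
def R_ADX : Prop := ∀ (p m : ℕ) [Fact p.Prime] (R : Type u) [Ring R]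
  [Algebra (ZMod p) R] (J M : Submodule (ZMod p) R) (x : R), NilJ p m J → x ∈ J →
  (∀ y ∈ M, x * y - y * x ∈ M) → ∀ y : R, x * y - y * x ∈ M → tex p x * y * tex p (-x) - y ∈ M

/-- The piece ADX. -/
def S_ADX : Prop := S_EXA.{u} → R_ADX.{u}

/-! ### Groups and Lie algebras -/

/-- **LKK.** The main step (instead of the Baker-Campbell-Hausdorff formula). Proof. Let `w ∈ W`, `tex p w = ρ s`, `s ∈ S`; let
`y ∈ J` be the logarithm of `ρ (s * b)` (EXB). CLAIM: `y - x ∈ W`. For `N : ℕ`: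
`tex p (N • y) = ρ (s * b) ^ N` and `tex p (-(N • x)) = ρ (b⁻¹) ^ N` (EXA: `tex p` of multiples of one
element multiply), so `tex p (N • y) * tex p (-(N • x)) = ρ ((s * b) ^ N * (b⁻¹) ^ N)`, and
`(s * b) ^ N * (b⁻¹) ^ N ∈ S` (induction on `N`; `b` normalises `S`). So
`φ N := aeval (tex p (N • y) * tex p (-(N • x)) - 1) q ∈ W` for all `N` (its `tex` is in `ρ S`, EXB).
By PFL `N ↦ tex p (N • y) * tex p (N • (-x)) - 1` is `PF` of degree `2 m` with the coefficients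
`0`, `y - x`, so `φ` is `PF` of degree `2 m²` with the coefficients `0`, `y - x`. If `2 m² < p`: the
interpolation gives `y - x ∈ W`. (`p` is odd and `2 m²` even, so `2 m² ≤ p` is the same.) So
`w ↦ y - x` maps `W` to `W`, and it is injective (`y` determines `ρ (s * b)`, so `ρ s = tex p w`, so
`w`). As `W` is finite it is onto: for the given `w ∈ W` there is `w'` with `y - x = w`:
`tex p (x + w) = ρ (s * b)`. -/
def R_LKK : Prop := ∀ (p m : ℕ) [Fact p.Prime] (R : Type u) [Ring R] [Algebra (ZMod p) R] [Finite R]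
  (J : Submodule (ZMod p) R) (A : Type u) [Group A] [Finite A] (ρ : A →* R), NilJ p m J →
  Function.Injective ρ → (∀ a, ρ a - 1 ∈ J) → ∀ (S : Subgroup A) (W : Submodule (ZMod p) R)
  (b : A) (x : R), IsLog p J ρ S W → (∀ s ∈ S, b * s * b⁻¹ ∈ S ∧ b⁻¹ * s * b ∈ S) → x ∈ J →
  tex p x = ρ b → ∀ w ∈ W, ∃ s ∈ S, tex p (x + w) = ρ (s * b)

/-- The piece LKK. -/
def S_LKK : Prop := S_EXA.{u} → S_LOG → S_EXB.{u} → S_PFL.{u} → R_LKK.{u}

/-- **LIE.** Groups give Lie algebras. Proof. (a) `S` has a logarithm `W` which is a subspace, with `|W| = |S|`: induction on `|S|`.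
`S = ⊥`: `W = ⊥`. Otherwise let `S' < S` be a (normal) subgroup of index `p`
(`Sylow.exists_subgroup_card_pow_prime`, `Subgroup.normal_of_index_eq_minFac_card`, as a
subgroup of `S`), `W'` its logarithm, `b ∈ S \ S'`, `x ∈ J` with `tex p x = ρ b` (EXB), `x ∉ W'`. For
`t : ZMod p`, `w ∈ W'`: `t • x ∈ J`, `tex p (t • x) = ρ (b ^ t.val)`, and `b ^ t.val` normalises `S'`; by
LKK `tex p (t • x + w) ∈ ρ S`. So the subspace `W = W' ⊔ span x` has `tex p W ⊆ ρ S`, and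
`|W| = p |W'| = p |S'| = |S|`; `tex p` is injective on `J` (EXB), so `tex p W = ρ S`, and
`IsLog p J ρ S W`. (b) `W` is closed under commutators: let `x, y ∈ W`, `tex p x = ρ b`, `tex p y =
ρ s`. For `N : ℕ`, `φ N = tex p (N • x) * y * tex p (-(N • x)) ∈ W`: it is in `J` and its `tex` is
`ρ (b ^ N * s * b ^ (-N))` (`tex p (g y g⁻¹) = g (tex p y) g⁻¹`). `φ` is `PF` of degree `2 m + 1`
with the coefficients `y`, `x * y - y * x` (PFL); interpolation (`2 m + 1 < 2 m² ≤ p`). -/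
def R_LIE : Prop := ∀ (p m : ℕ) [Fact p.Prime] (R : Type u) [Ring R] [Algebra (ZMod p) R] [Finite R]
  (J : Submodule (ZMod p) R) (A : Type u) [Group A] [Finite A] (ρ : A →* R), NilJ p m J →
  Function.Injective ρ → (∀ a, ρ a - 1 ∈ J) → IsPGroup p A → ∀ S : Subgroup A,
  ∃ W : Submodule (ZMod p) R, IsLog p J ρ S W ∧ IsLieS W ∧ Nat.card W = Nat.card S

/-- The piece LIE. -/
def S_LIE : Prop := S_EXA.{u} → S_LOG → S_EXB.{u} → S_PFL.{u} → R_LKK.{u} → R_LIE.{u}

/-- **SEC.** Lie subalgebras give subgroups. Proof. `W` the logarithm of `A`, `M ≤ W` closed under commutators. Induction on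
the dimension of `M`. `M = ⊥`: `S = ⊥`. `M ≠ ⊥`: the span `M₁` of the `x * y - y * x` (`x, y ∈ M`) is not
`M`, since otherwise `M ≤ J ^ (2^j)` for all `j` by induction. Let `M₁ ≤ M' < M` with `M'` of
codimension one in `M`; it is closed under commutators, and stable under `y ↦ x * y - y * x` for
`x ∈ M`; `S'` from the induction. Let `x ∈ M \ M'`, `b ∈ A` with `tex p x = ρ b`. `b` normalises `S'`:
`ρ (b s b⁻¹) = tex p x * tex p y * tex p (-x) = tex p (tex p x * y * tex p (-x))` for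
`ρ s = tex p y`, and `tex p x * y * tex p (-x) ∈ M'` by ADX; same for `b⁻¹` (with `-x`). `S` = the
subgroup generated by `S'` and `b`, of order at most `p |S'|` (`b ^ p = 1` as `tex p (p • x) = 1`,
EXA). By LKK (for `t • x` and `b ^ t.val`) `tex p (t • x + w) ∈ ρ S` for all `w ∈ M'`, `t : ZMod p`, so
`tex p M ⊆ ρ S`, `|M| = p |M'| = p |S'| ≥ |S|`, and `tex p` is injective on `J`: `ρ S = tex p M`. (Or:
let `S` be the subgroup `{a | ∃ s ∈ S', ∃ t : ℕ, a = s * b ^ t}`.) -/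
def R_SEC : Prop := ∀ (p m : ℕ) [Fact p.Prime] (R : Type u) [Ring R] [Algebra (ZMod p) R] [Finite R]
  (J : Submodule (ZMod p) R) (A : Type u) [Group A] [Finite A] (ρ : A →* R), NilJ p m J →
  Function.Injective ρ → (∀ a, ρ a - 1 ∈ J) → ∀ W : Submodule (ZMod p) R, IsLog p J ρ ⊤ W →
  ∀ M : Submodule (ZMod p) R, M ≤ W → IsLieS M → ∃ S : Subgroup A, IsLog p J ρ S M

/-- The piece SEC. -/
def S_SEC : Prop := S_EXA.{u} → S_LOG → S_EXB.{u} → R_ADX.{u} → R_LKK.{u} → R_SEC.{u}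

/-- **SEE.** Abelian sections. Proof. `|S| = |M|`, `|T| = |N|` (`tex p` is injective on `J`, `ρ` is injective), `T ≤ S`,
`|S : T| = p^(dim M) / p^(dim N)`. `S` has exponent `p`: `s ^ p = 1` as `tex p (p • x) = 1` (EXA). Let
`s, s' ∈ S`, `ρ s = tex p x`, `ρ s' = tex p y`. `ρ (s s' s⁻¹ s'⁻¹) = tex p (y + ν) * tex p (-y)`,
`y + ν = tex p x * y * tex p (-x)`, and `ν ∈ N` by ADX (for the subspace `N`). Now LKK for the subgroup `T`, the subspace `N`, `b = s'`, `x := y`, `w := ν`: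
`s'` normalises `T` (ADX with `M := N`; `x * y - y * x ∈ N` for `x ∈ M`, `y ∈ N ≤ M`), so
`tex p (y + ν) = ρ (t * s')` with `t ∈ T`, and the commutator is `t`. -/
def R_SEE : Prop := ∀ (p m : ℕ) [Fact p.Prime] (R : Type u) [Ring R] [Algebra (ZMod p) R] [Finite R]
  (J : Submodule (ZMod p) R) (A : Type u) [Group A] [Finite A] (ρ : A →* R), NilJ p m J →
  Function.Injective ρ → (∀ a, ρ a - 1 ∈ J) → ∀ (S T : Subgroup A) (M N : Submodule (ZMod p) R),
  IsLog p J ρ S M → IsLog p J ρ T N → N ≤ M → (∀ x ∈ M, ∀ y ∈ M, x * y - y * x ∈ N) →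
  ElSec p T S ∧ T.relIndex S * p ^ finrank (ZMod p) N = p ^ finrank (ZMod p) M

/-- The piece SEE. -/
def S_SEE : Prop := S_EXA.{u} → S_LOG → S_EXB.{u} → R_ADX.{u} → R_LKK.{u} → R_SEE.{u}

/-- **FLG.** Proof. The filtration `dlU` of `H82/Lin2.lean` (private there; copy it): `U 0 = ⊥`, `U (i+1)` = the
vectors fixed modulo `U i`, `U m = ⊤` because the dimensions increase. `J` = the operators that map
`U (i+1)` into `U i` for all `i`. -/
def S_FLG : Prop := ∀ (p : ℕ) [Fact p.Prime] (A : Type u) [Group A] [Finite A] (V : Type u)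
  [AddCommGroup V] [Module (ZMod p) V] [Finite V] (ρ : A →* Module.End (ZMod p) V) (m : ℕ),
  IsPGroup p A → Nat.card V ≤ p ^ m →
  ∃ J : Submodule (ZMod p) (Module.End (ZMod p) V), J * J ≤ J ∧ J ^ m = ⊥ ∧ ∀ a, ρ a - 1 ∈ J

/-- **TRA.** From coordinates to `R`. Proof. Let `b` be a basis of `W` indexed by `Fin n`, `n = finrank W`, `c i j l` the
coordinates of `b i * b j - b j * b i ∈ W`. `LieC m c`: alt clear; jac: Jacobi identity of the
commutator in `R`; nil: `adM c i` is the matrix of `y ↦ b i * y - y * b i` on `W`; a product of `m` of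
these maps takes `y ∈ J` into `J ^ (m+1)` (induction) `= ⊥`. Take the images in `R` of the `M`, `N` of
the hypothesis under `x ↦ ∑ i, x i • b i` (which maps `br c x y` to the commutator). -/
def S_TRA : Prop := ∀ (p m : ℕ) [Fact p.Prime] (R : Type u) [Ring R] [Algebra (ZMod p) R] [Finite R]
  (J W : Submodule (ZMod p) R), NilJ p m J → W ≤ J → IsLieS W →
  (∀ c : SC (finrank (ZMod p) W) (ZMod p), LieC m c →
    ∃ M N : Submodule (ZMod p) (Fin (finrank (ZMod p) W) → ZMod p), N ≤ M ∧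
      (∀ x ∈ M, ∀ y ∈ M, br c x y ∈ N) ∧
      finrank (ZMod p) W + 136 * finrank (ZMod p) N ≤ 136 * finrank (ZMod p) M) →
  ∃ M N : Submodule (ZMod p) R, N ≤ M ∧ M ≤ W ∧ (∀ x ∈ M, ∀ y ∈ M, x * y - y * x ∈ N) ∧
    finrank (ZMod p) W + 136 * finrank (ZMod p) N ≤ 136 * finrank (ZMod p) M

/-! ### The bound for linear groups of small degree -/

/-- every representation of degree at most `a` of a `p`-group of rank at most `a` has an image of
order at most `p ^ B`. -/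
def LB (p a B : ℕ) : Prop := ∀ (Q : Type u) [Group Q] [Finite Q], IsPGroup p Q →
  RkLE p (⊤ : Subgroup Q) a → H82.BndA p a B Q ⊥

/-- The theorem of part D. -/
def R_D : Prop := ∀ s : ℕ, ∃ p₀ : ℕ, ∀ (p : ℕ) [Fact p.Prime], p₀ ≤ p → ∀ a ≤ s,
  LB.{u} p a (136 * a)

/-- **GRP.** Proof. `p₀` = the maximum of `2 (s+2)²` and of the numbers of R_C for `1 ≤ n ≤ s²`, `K ≤ s + 2`. Let
`Q`, `V`, `ρ` be given, `|V| ≤ p^a`. Replace `Q` by `A = Q ⧸ ker ρ` (`H82.RkLE_quot`; the index is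
`|A|`) and `ρ` by the induced injective map. `m = max a 2`; `J` from FLG (`J ^ m = ⊥`), `NilJ p m J`.
`W` from LIE for `S = ⊤`: `|A| = |W| = p^n`, `n = finrank W ≤ dim End V ≤ a²`. If `n = 0` nothing to
prove. TRA with R_C for `n`, `K = m`: `M`, `N`. They are closed under commutators (`N`: `[N, N] ≤
[M, M] ≤ N`). `S`, `T` from SEC for `M`, `N`. SEE and the rank: `T.relIndex S ≤ p^a`, so
`finrank M - finrank N ≤ a`, and `n ≤ 136 a`. -/
def S_GRP : Prop := S_FLG.{u} → R_LIE.{u} → R_SEC.{u} → R_SEE.{u} → S_TRA.{u} → R_C → R_D.{u}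

/-! ### Part E -/

/-- **LM2.** Proof. As the second case of `H82.lin_main` (`H82/Lin5.lean`), with `B` in place of `7 * ℓ * a`: pass to
the faithful quotient (`lin5_quot` is private there; copy it), and `H82.lin_step` for `D = ⊥`. -/
def R_LM2 : Prop := ∀ (p : ℕ) [Fact p.Prime] (A : Type u) [Group A] [Finite A], IsPGroup p A →
  ∀ (V : Type u) [AddCommGroup V] [Module (ZMod p) V] [Finite V] [Nontrivial V]
    (ρ : A →* Module.End (ZMod p) V) (a n B : ℕ), LB.{u} p a B →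
    RkLE p (⊤ : Subgroup A) a → Nat.card V ≤ p ^ n → ∀ j : ℕ,
    ρ.ker.index ^ (3 ^ j) ≤ p ^ (3 ^ j * ((2 * j + 5) * a + B) + 2 * 2 ^ j * (n - 1))

/-- The piece LM2. -/
def S_LM2 : Prop := R_LM2.{u}

/-- **CI2.** Proof. As `H82.cent_idx` (`H82/Fin2.lean`) with LM2 in place of `lin_main`. -/
def R_CI2 : Prop := ∀ (G : Type u) [Group G] [Finite G] (p : ℕ) [Fact p.Prime], IsPGroup p G →
  ∀ (A : Subgroup G) (a B d : ℕ), LB.{u} p a B → RkLE p A a → ∀ (M U : Subgroup G),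
  H82.MaxAb p M → (∀ x, x ∈ U ↔ x ∈ M ∧ x ^ p = 1) → Nat.card U ≤ p ^ d →
  (Subgroup.centralizer (M : Set G)).relIndex A ≤ p ^ (6 * a + B + 2 * d)

/-- The piece CI2. -/
def S_CI2 : Prop := R_LM2.{u} → R_CI2.{u}

/-- **SB2.** Proof. As `H82.sec_bound2` (`H82/Sec2.lean`) with LM2 (`j = 4`) in place of `lin_main`:
`81 n ≤ 81 (13 a + B) + 32 n`, so `n ≤ 22 a + 2 B`. -/
def R_SB2 : Prop := ∀ (G : Type u) [Group G] [Finite G] (p : ℕ) [Fact p.Prime], IsPGroup p G →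
  ∀ (A B : Subgroup G), (∀ g : G, ∃ a ∈ A, ∃ b ∈ B, a * b = g) → ∀ a b B' : ℕ, LB.{u} p a B' →
  RkLE p A a → RkLE p B b → ∀ Y X : Subgroup G, Y.Normal → X.Normal → ElSec p Y X →
  ∀ d : ℕ, Y.relIndex X = p ^ d → d ≤ b + 22 * a + 2 * B'

/-- The piece SB2. -/
def S_SB2 : Prop := R_LM2.{u} → R_SB2.{u}

/-- **ML2.** Proof. As `H82.main_lin` (`H82/Fin2.lean`) with CI2, SB2:
`b + (6 a + B' + 2 d) + d ≤ 4 b + 72 a + 7 B'`. -/
def R_ML2 : Prop := ∀ (G : Type u) [Group G] [Finite G] (p : ℕ) [Fact p.Prime], IsPGroup p G →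
  ∀ (A B : Subgroup G), (∀ g : G, ∃ a ∈ A, ∃ b ∈ B, a * b = g) → ∀ a b B' : ℕ, LB.{u} p a B' →
  RkLE p A a → RkLE p B b → RkLE p (⊤ : Subgroup G) (4 * b + 72 * a + 7 * B')

/-- The piece ML2. -/
def S_ML2 : Prop := R_CI2.{u} → R_SB2.{u} → R_ML2.{u}

/-- The final theorem, in terms of `RkLE`: `C = 1024`. -/
def R_FIN : Prop := ∀ s : ℕ, ∃ p₀ : ℕ, ∀ (p : ℕ) [Fact p.Prime], p₀ ≤ p →
  ∀ (G : Type u) [Group G] [Finite G], IsPGroup p G →
  ∀ (A B : Subgroup G), (∀ g : G, ∃ a ∈ A, ∃ b ∈ B, a * b = g) → ∀ a b : ℕ, a ≤ s →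
  RkLE p A a → RkLE p B b → RkLE p (⊤ : Subgroup G) (4 * b + 1024 * a)

theorem fin_of (hD : R_D.{u}) (hM : R_ML2.{u}) : R_FIN.{u} := by
  intro s
  obtain ⟨p₀, h⟩ := hD s
  refine ⟨p₀, fun p _ hp G _ _ hG A B hAB a b ha hA hB => ?_⟩
  have h1 := hM G p hG A B hAB a b (136 * a) (h p hp a ha) hA hB
  have e : 4 * b + 72 * a + 7 * (136 * a) = 4 * b + 1024 * a := by ring
  rwa [e] at h1

end MP_b83a82_al.LP
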